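import Pool.Agent.Helper26.KD.StT

/-! # Project CB (MP_65faa7, bulk case), module EK: the environment for the truncation exists -/

set_option autoImplicit false

open scoped BigOperators ENNReal Topology
open Pool.LE Pool.NL Filter

namespace Pool.KD

namespace EKM

theorem sq_nonneg' {d : ℕ} (x : Zd d) : 0 ≤ LE.sq x := Finset.sum_nonneg fun _ _ => sq_nonneg _

theorem m3_mono {d : ℕ} {F : Zd d → ℝ} {K K' : ℝ} (h : M3 F K) (hK : K ≤ K') : M3 F K' :=
  ⟨h.summ, h.le.trans hK⟩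

theorem ft_zero {d : ℕ} (f : Zd d → ℝ) : FT f 0 = ∑' y, f y := by
  unfold FT
  refine tsum_congr fun x => ?_
  have : ∑ i, (0 : Fin d → ℝ) i * (x i : ℝ) = 0 := Finset.sum_eq_zero fun i _ => by
    rw [Pi.zero_apply, zero_mul]
  rw [this, Real.cos_zero, mul_one]

/-- the second moment of the source kernel is small -/
theorem second {d : ℕ} {h g : Zd d → ℝ} (hg : g = dl h) (hs : SumQ h) {c : ℝ} (hc : nQ h ≤ c) :
    |∑' y, LE.sq y * g y| ≤ c := by
  have e1 : ∀ y : Zd d, LE.sq y * g y = LE.sq y * h y := by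
    intro y
    rw [hg]
    unfold dl
    split_ifs with h0
    · have : LE.sq y = 0 := by
        rw [h0]
        unfold LE.sq
        exact Finset.sum_eq_zero fun i _ => by simp
      rw [this, zero_mul, zero_mul]
    · rw [add_zero]
  rw [tsum_congr e1]
  have hle : ∀ y : Zd d, |LE.sq y * h y| ≤ Qw y * |h y| := by
    intro y
    rw [abs_mul, abs_of_nonneg (sq_nonneg' y)]
    refine mul_le_mul_of_nonneg_right ?_ (abs_nonneg _)
    unfold Qw
    linarith [sq_nonneg' y]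
  have hs' : Summable fun y : Zd d => |LE.sq y * h y| :=
    Summable.of_nonneg_of_le (fun _ => abs_nonneg _) hle hs
  have h1 : |∑' y, LE.sq y * h y| ≤ ∑' y, |LE.sq y * h y| := by
    have := norm_tsum_le_tsum_norm (f := fun y : Zd d => LE.sq y * h y) (by simpa using hs')
    simpa using this
  exact h1.trans ((hs'.tsum_le_tsum hle hs).trans hc)

end EKM

open EKM in
theorem hEK (hG3 : StG3) (hM3p : StM3p) (hB8 : StB8) (hCvA : StCvA) (hEnv : StEnv) (hHub : StHub)
    (hKw : StKw) (hW : StW) : StEK := by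
  obtain ⟨a₁, h1⟩ := hG3
  obtain ⟨a₂, -, h2⟩ := hB8
  obtain ⟨a₃, h3⟩ := hEnv
  obtain ⟨a₄, h4⟩ := hKw
  refine ⟨a₁ + a₂ + a₃ + a₄, fun d hd => ?_⟩
  obtain ⟨hgz, hgE⟩ := h1 d (by omega)
  obtain ⟨p0, pd, p12, heta, hcrit⟩ := h2 d (by omega)
  obtain ⟨-, C₁, B, c₀, hE⟩ := h3 d (by omega)
  obtain ⟨C, hC, hw⟩ := h4 d (by omega) (11 / 4) (by norm_num) (by norm_num)
  have hd21 := hE.hd
  have hdR : (21 : ℝ) ≤ d := by exact_mod_cast hd21
  have hetat : eta d (pH d) ≠ ⊤ := ne_top_of_le_ne_top ENNReal.ofReal_ne_top heta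
  obtain ⟨m1, m2, m3, m4, m5⟩ := hM3p d (pH d) (by omega) p0.le (by linarith) hgz hetat
  obtain ⟨-, c2, c3, -, c5, -, c7⟩ := hCvA d (pH d) hetat
  have hn : nQ (hS d (pH d)) ≤ 1 / 200 :=
    c3.trans (ENNReal.toReal_le_of_le_ofReal (by norm_num) heta)
  have hsec := (abs_le.1 (second c5 c2 hn)).1
  have hdp : 2 * (d : ℝ) * pH d ≤ 2 := by
    have h5 := mul_le_mul_of_nonneg_left pd (show (0 : ℝ) ≤ 2 * d by positivity)
    have h6 : 2 * (d : ℝ) * (1 / d) = 2 := by field_simp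
    linarith
  have hFT : 1 / 2 ≤ FT (gS d (pH d)) 0 := by
    by_contra hlt
    push Not at hlt
    have h5 : 0 < 2 * (d : ℝ) * pH d := by positivity
    have h6 : 2 * (d : ℝ) * pH d * FT (gS d (pH d)) 0 < 2 * (d : ℝ) * pH d * (1 / 2) :=
      mul_lt_mul_of_pos_left hlt h5
    linarith
  refine ⟨max 1 (max (2 * (d : ℝ) ^ 2) (max (32 * pH d * (d : ℝ) ^ 3) (max C₁ C))),
    (∑' y, LE.sq y * FZ d (pH d) y) / (2 * d), ?_⟩
  have k1 : 2 * (d : ℝ) ^ 2 ≤ max 1 (max (2 * (d : ℝ) ^ 2) (max (32 * pH d * (d : ℝ) ^ 3) (max C₁ C))) :=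
    le_max_of_le_right (le_max_left _ _)
  have k2 : 32 * pH d * (d : ℝ) ^ 3 ≤
      max 1 (max (2 * (d : ℝ) ^ 2) (max (32 * pH d * (d : ℝ) ^ 3) (max C₁ C))) :=
    le_max_of_le_right (le_max_of_le_right (le_max_left _ _))
  have k3 : C₁ ≤ max 1 (max (2 * (d : ℝ) ^ 2) (max (32 * pH d * (d : ℝ) ^ 3) (max C₁ C))) :=
    le_max_of_le_right (le_max_of_le_right (le_max_of_le_right (le_max_left _ _)))
  have k4 : C ≤ max 1 (max (2 * (d : ℝ) ^ 2) (max (32 * pH d * (d : ℝ) ^ 3) (max C₁ C))) :=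
    le_max_of_le_right (le_max_of_le_right (le_max_of_le_right (le_max_right _ _)))
  exact
  { hd := hd21
    hK := le_max_left _ _
    hA := by
      rw [m5]
      exact mul_pos p0 (by linarith)
    p0 := p0
    p1 := p12.le
    dp := hdp
    g3 := hgE
    g3z := hgz
    gM := m3_mono m1 k1
    gsym := c7
    FM := m3_mono m2 k2
    Fsym := m3
    F1 := by rw [m4, hcrit]
    F2 := rfl
    gp := by
      rw [← ft_zero]
      linarith
    hub := fun n hn x hx => (hHub d C₁ B c₀ hE n hn x hx).trans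
      (mul_le_mul_of_nonneg_right k3 (by positivity))
    tw := by
      intro m L x hm
      refine (hw m L x hm).trans ?_
      have h5 : ww (11 / 4 - 2) m x ≤ 1 := ((hW d m hm).2.2.1 (11 / 4 - 2) x (by norm_num)).2.1
      have h6 : 0 ≤ C * m ^ 2 := by positivity
      calc C * m ^ 2 * ww (11 / 4 - 2) m x ≤ C * m ^ 2 * 1 := mul_le_mul_of_nonneg_left h5 h6
        _ = C * m ^ 2 := mul_one _
        _ ≤ _ := mul_le_mul_of_nonneg_right k4 (by positivity) }

end Pool.KD
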